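import Pool.Agent.R766.RW.Lin

/-!
# Functions that converge along random walks have an infinite dimensional orbit span

Let `G` be a topological group, `μ` a symmetric adapted Borel probability measure on `G` and
`f : G → ℝ` continuous, not constant, such that `f (x X_t)` converges almost surely for each `x`.
Then the span of the left translates of `f` is infinite dimensional. No moment condition, no
compact generation and no growth condition is needed.

Proof. Suppose the span `W` is finite dimensional. The evaluations `δ_g` span the dual `E` of `W`,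
and `G` acts on `E` with `g δ_h = δ_{gh}`. So `X_t v` converges almost surely, where `v = δ_1`, and
`X_t (h v - v)` tends to zero in probability for `h` distributed as `X_s`. Along a suitable
sequence of times the vectors `w` for which `X_t h w` tends to zero in probability for
almost all `h` form a subspace `F`, and `{g | g F = F, g v - v ∈ F}` is a closed subgroup of full
measure, so it is `G`. On the invariant subspace `F` the determinant of `X_t` tends to zero in
probability along the sequence, but `log |det X_t|` has a symmetric law. So `F = 0` and `G` fixes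
`v`, so `f` is constant.
-/

set_option autoImplicit false

open MeasureTheory ProbabilityTheory Finset Filter Topology
open scoped ENNReal

namespace Pool.Agent.Results.MP_0b4a43_pr.OrbitSpan

open Pool.Agent.R766.RW

section Defs

variable {G : Type*} [Group G]

/-- The translate `(γ.f)(x) = f(γ⁻¹ x)`. -/
def translate (γ : G) (f : G → ℝ) : G → ℝ := fun x => f (γ⁻¹ * x)

/-- The orbit span of `f`: the linear span of the translates of `f`. -/
def orbitSpan (f : G → ℝ) : Submodule ℝ (G → ℝ) :=
  Submodule.span ℝ (Set.range fun γ : G => translate γ f)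

/-- The random walk `X_0 = 1`, `X_{t+1} = X_t U_{t+1}` (with the increments numbered from `0`). -/
def walk {Ω : Type*} (U : ℕ → Ω → G) : ℕ → Ω → G
  | 0, _ => 1
  | t + 1, ω => walk U t ω * U t ω

variable [MeasurableSpace G] (μ : Measure G)

/-- `U` is a sequence of independent random elements of `G` with law `μ`. -/
structure IsIncrements {Ω : Type*} {_ : MeasurableSpace Ω} (P : Measure Ω) (U : ℕ → Ω → G) :
    Prop where
  prob : IsProbabilityMeasure P
  meas : ∀ i, Measurable (U i)
  indep : iIndepFun U P
  law : ∀ i, P.map (U i) = μ

/-- The measure is symmetric. -/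
def IsSymmetric : Prop := ∀ A : Set G, MeasurableSet A → μ A⁻¹ = μ A

/-- The measure is adapted: it does not give full measure to a proper closed subgroup. -/
def IsAdapted [TopologicalSpace G] : Prop :=
  ∀ H : Subgroup G, IsClosed (H : Set G) → H ≠ ⊤ → μ H < 1

end Defs

/-! ### The representation -/

section Rep

variable {G : Type*} [Group G] (f : G → ℝ)

theorem shift_mem (g : G) (w : G → ℝ) (hw : w ∈ orbitSpan f) :
    LinearMap.funLeft ℝ ℝ (fun y => g * y) w ∈ orbitSpan f := by
  have h : orbitSpan f ≤ (orbitSpan f).comap (LinearMap.funLeft ℝ ℝ fun y : G => g * y) := by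
    unfold orbitSpan
    rw [Submodule.span_le]
    rintro _ ⟨γ, rfl⟩
    refine Submodule.subset_span ⟨g⁻¹ * γ, ?_⟩
    funext x
    simp only [translate, LinearMap.funLeft_apply]
    congr 1
    group
  exact h hw

/-- The shift `w ↦ w (g ·)` on the orbit span. -/
def shift (g : G) : orbitSpan f →ₗ[ℝ] orbitSpan f :=
  (LinearMap.funLeft ℝ ℝ (fun y => g * y)).restrict (shift_mem f g)

theorem shift_apply (g : G) (w : orbitSpan f) (x : G) :
    (shift f g w : G → ℝ) x = (w : G → ℝ) (g * x) := rfl

variable {n : ℕ} (b : Module.Basis (Fin n) ℝ (orbitSpan f))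

/-- The action on the dual space, in coordinates, as a linear map. -/
noncomputable def lin (g : G) : (Fin n → ℝ) →ₗ[ℝ] (Fin n → ℝ) :=
  (b.constr ℝ).symm.toLinearMap ∘ₗ (shift f g).dualMap ∘ₗ (b.constr ℝ).toLinearMap

theorem lin_apply (g : G) (c : Fin n → ℝ) :
    lin f b g c = (b.constr ℝ).symm ((b.constr ℝ c) ∘ₗ shift f g) := rfl

/-- The representation on the dual space, in coordinates. -/
noncomputable def rep : G →* ((Fin n → ℝ) →L[ℝ] (Fin n → ℝ)) where
  toFun g := LinearMap.toContinuousLinearMap (lin f b g)
  map_one' := by
    refine ContinuousLinearMap.ext fun c => ?_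
    show lin f b 1 c = c
    rw [lin_apply]
    have : shift f (1 : G) = LinearMap.id := by
      refine LinearMap.ext fun w => Subtype.ext (funext fun x => ?_)
      rw [shift_apply, one_mul]; rfl
    rw [this, LinearMap.comp_id, LinearEquiv.symm_apply_apply]
  map_mul' g h := by
    refine ContinuousLinearMap.ext fun c => ?_
    show lin f b (g * h) c = lin f b g (lin f b h c)
    rw [lin_apply, lin_apply, lin_apply, LinearEquiv.apply_symm_apply, LinearMap.comp_assoc]
    congr 2
    refine LinearMap.ext fun w => Subtype.ext (funext fun x => ?_)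
    rw [LinearMap.comp_apply, shift_apply, shift_apply, shift_apply, mul_assoc]

/-- The evaluation at `g`, in coordinates. -/
noncomputable def ev (g : G) : Fin n → ℝ := fun i => (b i : G → ℝ) g

theorem constr_ev (g : G) (w : orbitSpan f) : b.constr ℝ (ev f b g) w = (w : G → ℝ) g := by
  let e : orbitSpan f →ₗ[ℝ] ℝ := (LinearMap.proj g) ∘ₗ (orbitSpan f).subtype
  have h : b.constr ℝ (ev f b g) = e := by
    refine b.ext fun i => ?_
    rw [b.constr_basis]
    rfl
  rw [h]
  rfl

theorem rep_ev (g h : G) : rep f b g (ev f b h) = ev f b (g * h) := by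
  show lin f b g (ev f b h) = _
  rw [lin_apply, LinearEquiv.symm_apply_eq]
  refine b.ext fun i => ?_
  rw [LinearMap.comp_apply, constr_ev, constr_ev, shift_apply]

theorem span_ev : Submodule.span ℝ (Set.range (ev f b)) = ⊤ := by
  by_contra hne
  obtain ⟨φ, hφ, hle⟩ := Submodule.exists_le_ker_of_lt_top _ (lt_top_iff_ne_top.2 hne)
  apply hφ
  have h1 : ∑ i, φ (Pi.single i 1) • b i = 0 := by
    refine Subtype.ext (funext fun g => ?_)
    have h2 : φ (ev f b g) = 0 := hle (Submodule.subset_span ⟨g, rfl⟩)
    rw [LinearMap.pi_apply_eq_sum_univ φ] at h2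
    simp only [Submodule.coe_sum, Submodule.coe_smul, Finset.sum_apply, Pi.smul_apply, smul_eq_mul,
      ZeroMemClass.coe_zero, Pi.zero_apply]
    rw [← h2]
    refine sum_congr rfl fun i _ => ?_
    rw [smul_eq_mul, mul_comm]
    congr 2
    funext j
    simp [Pi.single_apply, eq_comm]
  have h3 := Fintype.linearIndependent_iff.1 b.linearIndependent _ h1
  refine LinearMap.pi_ext' fun i => LinearMap.ext_ring ?_
  simpa using h3 i

theorem continuous_mem [TopologicalSpace G] [ContinuousMul G] (hf : Continuous f) (w : G → ℝ)
    (hw : w ∈ orbitSpan f) : Continuous w := by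
  unfold orbitSpan at hw
  induction hw using Submodule.span_induction with
  | mem x h =>
    obtain ⟨γ, rfl⟩ := h
    exact hf.comp (continuous_const.mul continuous_id)
  | zero => exact continuous_const
  | add x y _ _ hx hy => exact hx.add hy
  | smul a x _ hx => exact hx.const_smul a

theorem continuous_rep [TopologicalSpace G] [ContinuousMul G] (hf : Continuous f) :
    Continuous (rep f b) := by
  rw [continuous_clm_apply]
  intro c
  have hc : c ∈ Submodule.span ℝ (Set.range (ev f b)) := by rw [span_ev]; trivial
  induction hc using Submodule.span_induction with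
  | mem x h =>
    obtain ⟨h, rfl⟩ := h
    simp only [rep_ev]
    refine continuous_pi fun i => ?_
    exact (continuous_mem f hf _ (b i).2).comp (continuous_id.mul continuous_const)
  | zero => simp only [map_zero]; exact continuous_const
  | add x y _ _ hx hy => simp only [map_add]; exact hx.add hy
  | smul a x _ hx => simp only [map_smul]; exact hx.const_smul a

end Rep

theorem walk_eq {G Ω : Type*} [Group G] (U : ℕ → Ω → G) (t : ℕ) (ω : Ω) :
    walk U t ω = prd (fun i => U i ω) 0 t := by
  induction t with
  | zero => rfl
  | succ t ih => rw [walk, prd, ih, zero_add]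

/-- **The orbit span is infinite dimensional.** Let `μ` be a symmetric adapted Borel probability
measure on a topological group `G`, let `U` be independent random elements of `G` with law `μ` and
let `f : G → ℝ` be a continuous function that is not constant, such that for each `x` the sequence
`f (x X_t)` converges almost surely. Then the span of the translates of `f` is not finite
dimensional. -/
theorem result {G : Type*} [Group G] [TopologicalSpace G] [IsTopologicalGroup G]
    [MeasurableSpace G] [BorelSpace G] (μ : Measure G) [IsProbabilityMeasure μ]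
    (hsymm : IsSymmetric μ) (hadapt : IsAdapted μ)
    {Ω : Type*} {_ : MeasurableSpace Ω} (P : Measure Ω) (U : ℕ → Ω → G)
    (hU : IsIncrements μ P U) (f : G → ℝ) (hf : Continuous f) (hne : ¬ ∃ c, ∀ x, f x = c)
    (hconv : ∀ x, ∀ᵐ ω ∂P, ∃ l, Tendsto (fun t => f (x * walk U t ω)) atTop (𝓝 l)) :
    ¬ FiniteDimensional ℝ (orbitSpan f) := by
  intro hfin
  apply hne
  have := hU.prob
  have b := Module.finBasis ℝ (orbitSpan f)
  have hinv : Measurable fun g : G => g⁻¹ := measurable_inv
  have hs : μ.map (fun g => g⁻¹) = μ := by
    refine Measure.ext fun A hA => ?_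
    rw [Measure.map_apply hinv hA]
    exact hsymm A hA
  -- all functions in the span converge
  have h1 : ∀ w ∈ orbitSpan f, ∀ᵐ ω ∂P, ∃ l, Tendsto (fun t => w (walk U t ω)) atTop (𝓝 l) := by
    intro w hw
    unfold orbitSpan at hw
    induction hw using Submodule.span_induction with
    | mem x h =>
      obtain ⟨γ, rfl⟩ := h
      exact hconv γ⁻¹
    | zero => exact Eventually.of_forall fun ω => ⟨0, tendsto_const_nhds⟩
    | add x y _ _ hx hy =>
      filter_upwards [hx, hy] with ω h h'
      obtain ⟨l, hl⟩ := h
      obtain ⟨l', hl'⟩ := h'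
      exact ⟨l + l', hl.add hl'⟩
    | smul a x _ hx =>
      filter_upwards [hx] with ω h
      obtain ⟨l, hl⟩ := h
      exact ⟨a • l, hl.const_smul a⟩
  have h2 : ∀ᵐ ω ∂P, ∃ l, Tendsto (fun t => rep f b (prd (fun i => U i ω) 0 t) (ev f b 1))
      atTop (𝓝 l) := by
    filter_upwards [ae_all_iff.2 fun i => h1 _ (b i).2] with ω hω
    choose l hl using hω
    refine ⟨l, ?_⟩
    rw [tendsto_pi_nhds]
    intro i
    simp only [rep_ev, mul_one, ← walk_eq]
    exact hl i
  have h3 := fixed μ hinv hs hadapt hU.meas hU.indep hU.law (rep f b) (continuous_rep f b hf)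
    (ev f b 1) h2
  have h4 : f ∈ orbitSpan f := Submodule.subset_span ⟨1, by funext x; simp [translate]⟩
  refine ⟨f 1, fun x => ?_⟩
  have h5 := h3 x
  rw [rep_ev, mul_one] at h5
  have h6 := constr_ev f b x ⟨f, h4⟩
  have h7 := constr_ev f b 1 ⟨f, h4⟩
  rw [h5, h7] at h6
  exact h6.symm

end Pool.Agent.Results.MP_0b4a43_pr.OrbitSpan
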